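import Pool.Agent.K7.H47.DM.Stm4

set_option autoImplicit false

namespace Pool.Agent.K7.H38.D4

open Pool.Agent.K7.H47.DM4

theorem blk (h : StP) : StBlk := by
  intro ι _ _ t j cl ht hj σ hσ
  set M : Matrix ι ι ℚ := Matrix.of fun r c =>
    if cl (σ.symm r) = cl c then (((t r).choose (j c) : ℕ) : ℚ) else 0 with hM
  have h1 : (M.submatrix σ id).det = Equiv.Perm.sign σ * M.det := Matrix.det_permute σ M
  have h2 : (M.submatrix σ id).det ≠ 0 := by
    have hbt : (M.submatrix σ id).BlockTriangular cl := by
      intro a b hab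
      rw [Matrix.submatrix_apply, hM, Matrix.of_apply, Equiv.symm_apply_apply, id,
        if_neg hab.ne']
    rw [hbt.det]
    rw [Finset.prod_ne_zero_iff]
    intro a _
    have e : (M.submatrix σ id).toSquareBlock cl a
        = Matrix.of fun (r c : {i // cl i = a}) => (((t (σ r)).choose (j c) : ℕ) : ℚ) := by
      ext r c
      show (if cl (σ.symm (σ r)) = cl c then (((t (σ r)).choose (j c) : ℕ) : ℚ) else 0)
        = (((t (σ r)).choose (j c) : ℕ) : ℚ)
      rw [Equiv.symm_apply_apply, if_pos (r.2.trans c.2.symm)]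
    rw [e]
    have h3 := h {i // cl i = a} (fun r => t (σ r)) (fun c => j c)
      (fun x y hxy => Subtype.ext (σ.injective (ht hxy)))
      (fun x y hxy => Subtype.ext (hj _ _ (x.2.trans y.2.symm) hxy)) (fun c => hσ c)
    convert h3
  intro h0
  rw [h1, h0, mul_zero] at h2
  exact h2 rfl

end Pool.Agent.K7.H38.D4
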